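import Pool.Agent.Helper65.PI.Weyl
import Pool.Agent.Helper65.PI.Hol
import Pool.Agent.Helper65.PI.Ext
import Pool.Agent.Helper65.PI.Max
import Pool.Agent.Helper65.PI.Shift
import Pool.Agent.Helper65.PI.Half
import Pool.Agent.Helper65.PI.Conn
import Pool.Agent.Helper65.PI.Int
import Pool.Agent.Helper65.PI.Near
import Pool.Agent.Helper65.PI.Qd
import Pool.Agent.Helper65.PI.Qp
import Pool.Agent.Helper65.PI.Kk
import Pool.Agent.Helper65.PI.Rig
import Pool.Agent.Helper65.PI.Eq
import Pool.Agent.Helper65.PI.Ne
import Pool.Agent.Helper65.PI.Top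
import Pool.Agent.Helper65.PI.Main

/-!
# Two boundary measurements determine a planar inclusion: conformal interior potentials

Let `D` be an admissible inclusion of conductivity `k` in the bounded connected planar body `Ω`
with smooth boundary, let `u₀, u₁` be the potentials of two Dirichlet data, and suppose that a
complex combination `u₀ + λ u₁` is holomorphic and not constant in `D`. Then `D` is the only
admissible inclusion with these two pairs of Dirichlet and Neumann data.
-/

set_option autoImplicit false

open Set Filter Topology MeasureTheory Complex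
open scoped ContDiff ComplexConjugate

namespace Pool.Agent.Results.MP_dfbc29_an.ConformalInterior

open Pool.Agent.Helper65.PI

theorem result (Ω D D' : Set ℂ) (k : ℝ) (u v u' v' : Fin 2 → ℂ → ℝ) (lam : ℂ)
    (hΩ : IsOpen Ω) (hconn : IsConnected Ω) (hbdd : Bornology.IsBounded Ω)
    (hsmooth : SmoothBoundary Ω) (hk : 0 < k) (hk1 : k ≠ 1)
    (hD : Admissible Ω D) (hD' : Admissible Ω D')
    (hpot : ∀ j, IsPotential Ω D k (u j) (v j))
    (hpot' : ∀ j, IsPotential Ω D' k (u' j) (v' j))
    (hdata : ∀ j, SameData Ω (u j) (v j) (u' j) (v' j))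
    (hhol : DifferentiableOn ℂ (fun z => (u 0 z : ℂ) + lam * (u 1 z : ℂ)) D)
    (hnonconst : ∃ x ∈ D, ∃ y ∈ D,
      (u 0 x : ℂ) + lam * (u 1 x : ℂ) ≠ (u 0 y : ℂ) + lam * (u 1 y : ℂ)) :
    D = D' := by
  have hw : StWEYL := weyl
  have hh : StHOL := hol hw
  have hc : StCONN := conn half
  have hq : StQD := qd hh
  have hp : StQP := qp hh max
  have ht : StTOP := top kk (eqq kk max rig (int half)) (ne kk max rig half hc)
  exact main (ext hw) hh shift near hc hq hp ht half
    Ω D D' k u v u' v' lam hΩ hconn hbdd hsmooth hk hk1 hD hD' hpot hpot' hdata hhol hnonconst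

end Pool.Agent.Results.MP_dfbc29_an.ConformalInterior
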