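import Pool.Agent.Helper65.PI.Weyl
import Pool.Agent.Helper65.PI.Hol
import Pool.Agent.Helper65.PI.Shift
import Pool.Agent.Helper65.PI.Half
import Pool.Agent.Helper65.PI.Conn
import Pool.Agent.Helper65.PI.Int
import Pool.Agent.Helper65.PI.Near
import Pool.Agent.Helper49.DF.M_CIRC
import Pool.Agent.Helper49.DF.M_HN0
import Pool.Agent.Helper49.DF.M_INV
import Pool.Agent.Helper49.DF.M_HNZ
import Pool.Agent.Helper49.DF.M_LH
import Pool.Agent.Helper49.DF.M_SL
import Pool.Agent.Helper49.DF.M_OL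
import Pool.Agent.Helper49.DF.M_LOG
import Pool.Agent.Helper49.DF.M_CONE
import Pool.Agent.Helper49.DF.M_BALL
import Pool.Agent.Helper49.DF.M_REFL
import Pool.Agent.Helper49.DF.M_POUT
import Pool.Agent.Helper49.DF.M_PIN
import Pool.Agent.Helper49.DF.M_KER
import Pool.Agent.Helper49.DF.M_POMP
import Pool.Agent.Helper49.DF.M_SMALL
import Pool.Agent.Helper49.DF.M_NULL
import Pool.Agent.Helper49.DF.M_DENS
import Pool.Agent.Helper49.DF.M_WL
import Pool.Agent.Helper49.DF.M_CORE
import Pool.Agent.Helper49.DF.M_EXTD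
import Pool.Agent.Helper49.DF.M_TOPB
import Pool.Agent.Helper49.DF.M_FIN
import Pool.Agent.Helper49.DF.M_MAINB

/-!
# One measurement with nowhere analytic data determines a hyperbolic disc

Let `ψ` map the disc of radius `ρ > 1` conformally onto `Ω` and let `D` be the image of the unit disc (if `Ω` is a
disc, `D` is any disc with closure in `Ω`). Let `u` be the potential of one Dirichlet datum for `D`, with
stream function `v`, such that `u + i v` is injective and `(u + i v) ∘ ψ` extends continuously to the closed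
disc, but not holomorphically across any point of the circle. Then `D` is the only admissible inclusion with this
Dirichlet and Neumann data.
-/

set_option autoImplicit false

open Set Filter Topology MeasureTheory Complex
open scoped ContDiff ComplexConjugate

namespace Pool.Agent.Results.MP_dfbc29_an.NowhereAnalyticData

open Pool.Agent.Helper65.PI

theorem result (Ω D D' : Set ℂ) (k ρ : ℝ) (u v u' v' : ℂ → ℝ) (ψ f : ℂ → ℂ)
    (hΩ : IsOpen Ω) (hconn : IsConnected Ω) (hbdd : Bornology.IsBounded Ω)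
    (hsmooth : SmoothBoundary Ω) (hk : 0 < k) (hk1 : k ≠ 1) (hρ : 1 < ρ)
    (hψ : DifferentiableOn ℂ ψ (Metric.ball 0 ρ)) (hinj : InjOn ψ (Metric.ball 0 ρ))
    (honto : ψ '' Metric.ball 0 ρ = Ω)
    (hD : D = ψ '' Metric.ball 0 1) (hD' : Admissible Ω D')
    (hpot : IsPotential Ω D k u v) (hpot' : IsPotential Ω D' k u' v')
    (hdata : SameData Ω u v u' v')
    (hfield : InjOn (fun z => (u z : ℂ) + I * (v z : ℂ)) Ω)
    (hf : ContinuousOn f (Metric.closedBall 0 ρ))
    (hfu : ∀ ζ ∈ Metric.ball (0 : ℂ) ρ, f ζ = (u (ψ ζ) : ℂ) + I * (v (ψ ζ) : ℂ))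
    (hnowhere : ∀ V : Set ℂ, IsOpen V → (V ∩ Metric.sphere 0 ρ).Nonempty →
      ¬ ∃ g : ℂ → ℂ, DifferentiableOn ℂ g V ∧ ∀ ζ ∈ V ∩ Metric.ball 0 ρ, g ζ = f ζ) :
    D' = D := by
  subst hD
  have hw : StWEYL := weyl
  have hh : StHOL := hol hw
  have hc : StCONN := conn half
  have h0 := Helper49.DF.hn0
  have hi := Helper49.DF.inv h0
  have hlh := Helper49.DF.lh
  have hlog := Helper49.DF.log (Helper49.DF.hnz h0) hlh Helper49.DF.sl (Helper49.DF.ol hlh)
  have hWL := Helper49.DF.wl Helper49.DF.ball Helper49.DF.refl (Helper49.DF.pout hc)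
    Helper49.DF.pin Helper49.DF.ker Helper49.DF.null
    (Helper49.DF.dens Helper49.DF.pomp Helper49.DF.small)
  have hext := Helper49.DF.extd hh Helper49.DF.circ hi
  refine Helper49.DF.mainb near hh shift (int half) hext hi
    (Helper49.DF.topb hc half (int half) hi) hlog
    (Helper49.DF.core hWL Helper49.DF.cone) (Helper49.DF.fin hi)
    Ω D' k ρ u v u' v' ψ f hΩ hconn hbdd hsmooth hk hk1 hρ hψ hinj honto hD' hpot hpot' hdata
    ?_ hf hfu hnowhere
  intro x hx y hy hxy
  exact hinj hx hy (hfield (honto ▸ ⟨x, hx, rfl⟩) (honto ▸ ⟨y, hy, rfl⟩) hxy)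

end Pool.Agent.Results.MP_dfbc29_an.NowhereAnalyticData
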