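import Pool.Agent.Helper65.PI.Weyl
import Pool.Agent.Helper65.PI.Hol
import Pool.Agent.Helper65.PI.Shift
import Pool.Agent.Helper65.PI.Half
import Pool.Agent.Helper65.PI.Conn
import Pool.Agent.Helper65.PI.Near
import Pool.Agent.Helper49.DF.M_CIRC
import Pool.Agent.Helper49.DF.M_HN0
import Pool.Agent.Helper49.DF.M_INV
import Pool.Agent.Helper49.DF.M_HNZ
import Pool.Agent.Helper49.DF.M_LH
import Pool.Agent.Helper49.DF.M_SL
import Pool.Agent.Helper49.DF.M_OL
import Pool.Agent.Helper49.DF.M_LOG
import Pool.Agent.Helper49.DF.M_CONE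
import Pool.Agent.Helper49.DF.M_BALL
import Pool.Agent.Helper49.DF.M_REFL
import Pool.Agent.Helper49.DF.M_POUT
import Pool.Agent.Helper49.DF.M_PIN
import Pool.Agent.Helper49.DF.M_KER
import Pool.Agent.Helper49.DF.M_POMP
import Pool.Agent.Helper49.DF.M_SMALL
import Pool.Agent.Helper49.DF.M_NULL
import Pool.Agent.Helper49.DF.M_DENS
import Pool.Agent.Helper49.DF.M_WL
import Pool.Agent.Helper49.DF.M_ANN
import Pool.Agent.Helper49.DF.M_REAL
import Pool.Agent.Helper49.DF.M_EXTD
import Pool.Agent.Helper49.DF.M_EXTDV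
import Pool.Agent.Helper49.DF.M_LOGV
import Pool.Agent.Helper49.DF.M_COREV
import Pool.Agent.Helper49.DF.M_HATV
import Pool.Agent.Helper49.DF.M_TOPAV
import Pool.Agent.Helper49.DF.M_FINV
import Pool.Agent.Helper49.DF.M_MAINV

/-!
# One measurement determines an inclusion with analytic boundary in a collar

Let `ψ` map the open set `V`, star shaped about `0` and containing the disc of radius `ρ > 1`, conformally
into `Ω`, let `D` be the image of the unit disc and `u` the potential of one Dirichlet datum for `D`, with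
stream function `v`, such that `u + i v` is injective on `ψ(V)`. If `D'` is an admissible inclusion with the same
Dirichlet and Neumann data whose boundary does not meet the image of the disc of radius `1 / ρ` (and whose
closure is in `ψ(V)` if it contains `ψ(0)`), then `D' = D`.
-/

set_option autoImplicit false

open Set Filter Topology MeasureTheory Complex
open scoped ContDiff ComplexConjugate

namespace Pool.Agent.Results.MP_dfbc29_an.OneMeasurementCollar

open Pool.Agent.Helper65.PI

theorem result (Ω D D' V : Set ℂ) (k ρ : ℝ) (u v u' v' : ℂ → ℝ) (ψ : ℂ → ℂ)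
    (hΩ : IsOpen Ω) (hconn : IsConnected Ω) (hbdd : Bornology.IsBounded Ω)
    (hsmooth : SmoothBoundary Ω) (hk : 0 < k) (hk1 : k ≠ 1)
    (hρ : 1 < ρ) (hV : IsOpen V) (hstar : StarConvex ℝ (0 : ℂ) V)
    (hball : Metric.ball 0 ρ ⊆ V)
    (hψ : DifferentiableOn ℂ ψ V) (hinj : InjOn ψ V) (hsub : ψ '' V ⊆ Ω)
    (hD : D = ψ '' Metric.ball 0 1) (hD' : Admissible Ω D')
    (hclosure : ψ 0 ∈ D' → closure D' ⊆ ψ '' V)
    (hdisj : Disjoint (frontier D') (ψ '' Metric.closedBall 0 ρ⁻¹))
    (hpot : IsPotential Ω D k u v) (hpot' : IsPotential Ω D' k u' v')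
    (hdata : SameData Ω u v u' v')
    (hfield : InjOn (fun z => (u z : ℂ) + I * (v z : ℂ)) (ψ '' V)) :
    D' = D := by
  subst hD
  have hw : StWEYL := weyl
  have hh : StHOL := hol hw
  have hc : StCONN := conn half
  have h0 := Helper49.DF.hn0
  have hi := Helper49.DF.inv h0
  have hlh := Helper49.DF.lh
  have hlog := Helper49.DF.log (Helper49.DF.hnz h0) hlh Helper49.DF.sl (Helper49.DF.ol hlh)
  have hWL := Helper49.DF.wl Helper49.DF.ball Helper49.DF.refl (Helper49.DF.pout hc)
    Helper49.DF.pin Helper49.DF.ker Helper49.DF.null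
    (Helper49.DF.dens Helper49.DF.pomp Helper49.DF.small)
  have hext := Helper49.DF.extd hh Helper49.DF.circ hi
  have hextv := Helper49.DF.extdv hh hext hi
  have htop := Helper49.DF.topav hc half (Helper49.DF.hatv hi) Helper49.DF.ann Helper49.DF.real
  refine Helper49.DF.mainv near hh shift hextv hi htop (Helper49.DF.logv hlog hlh)
    (Helper49.DF.corev hWL Helper49.DF.cone) (Helper49.DF.finv hi Helper49.DF.ann)
    Ω D' V k ρ u v u' v' ψ hΩ hconn hbdd hsmooth hk hk1 hρ hV hstar hball hψ hinj hsub hD'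
    hclosure hdisj hpot hpot' hdata ?_
  intro x hx y hy hxy
  exact hinj hx hy (hfield ⟨x, hx, rfl⟩ ⟨y, hy, rfl⟩ hxy)

end Pool.Agent.Results.MP_dfbc29_an.OneMeasurementCollar
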