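import Pool.Agent.Helper65.PI.Weyl
import Pool.Agent.Helper65.PI.Hol
import Pool.Agent.Helper65.PI.Shift
import Pool.Agent.Helper65.PI.Half
import Pool.Agent.Helper65.PI.Conn
import Pool.Agent.Helper65.PI.Near
import Pool.Agent.Helper49.DF.M_CIRC
import Pool.Agent.Helper49.DF.M_HN0
import Pool.Agent.Helper49.DF.M_INV
import Pool.Agent.Helper49.DF.M_CONE
import Pool.Agent.Helper49.DF.M_BALL
import Pool.Agent.Helper49.DF.M_REFL
import Pool.Agent.Helper49.DF.M_POUT
import Pool.Agent.Helper49.DF.M_PIN
import Pool.Agent.Helper49.DF.M_KER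
import Pool.Agent.Helper49.DF.M_POMP
import Pool.Agent.Helper49.DF.M_SMALL
import Pool.Agent.Helper49.DF.M_NULL
import Pool.Agent.Helper49.DF.M_DENS
import Pool.Agent.Helper49.DF.M_WL
import Pool.Agent.Helper49.DF.M_ANN
import Pool.Agent.Helper49.DF.M_EXTD
import Pool.Agent.Helper49.DF.M_EXTDV
import Pool.Agent.Helper49.DF.M_COREV
import Pool.Agent.Helper49.DF.M_FINV
import Pool.Agent.Helper49.DF.M_TOPU
import Pool.Agent.Helper49.DF.M_MAINU

/-!
# One measurement with uniform interior field determines the inclusion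

Let `ψ` map the open connected set `V`, which contains the closed unit disc, conformally into `Ω`, let `D` be
the image of the unit disc and suppose that the interior complex potential `u + i v / k` of one Dirichlet datum is
`α ψ⁻¹ + β` in `D` (for a disc `D` this says that the interior field is uniform; then `V` can be chosen with
`ψ(V) = Ω`). If `D'` is an admissible inclusion with the same Dirichlet and Neumann data (with closure in
`ψ(V)` if it contains `ψ(0)`), then `D' = D`.
-/

set_option autoImplicit false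

open Set Filter Topology MeasureTheory Complex
open scoped ContDiff ComplexConjugate

namespace Pool.Agent.Results.MP_dfbc29_an.UniformField

open Pool.Agent.Helper65.PI

theorem result (Ω D D' V : Set ℂ) (k : ℝ) (α β : ℂ) (u v u' v' : ℂ → ℝ) (ψ : ℂ → ℂ)
    (hΩ : IsOpen Ω) (hconn : IsConnected Ω) (hbdd : Bornology.IsBounded Ω)
    (hsmooth : SmoothBoundary Ω) (hk : 0 < k) (hk1 : k ≠ 1)
    (hV : IsOpen V) (hVconn : IsPreconnected V) (hdisc : Metric.closedBall 0 1 ⊆ V)
    (hψ : DifferentiableOn ℂ ψ V) (hinj : InjOn ψ V) (hsub : ψ '' V ⊆ Ω)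
    (hD : D = ψ '' Metric.ball 0 1) (hD' : Admissible Ω D')
    (hclosure : ψ 0 ∈ D' → closure D' ⊆ ψ '' V)
    (hpot : IsPotential Ω D k u v) (hpot' : IsPotential Ω D' k u' v')
    (hdata : SameData Ω u v u' v') (hα : α ≠ 0)
    (huniform : ∀ ζ ∈ Metric.ball (0 : ℂ) 1,
      (u (ψ ζ) : ℂ) + I * ((v (ψ ζ) / k : ℝ) : ℂ) = α * ζ + β) :
    D' = D := by
  subst hD
  have hw : StWEYL := weyl
  have hh : StHOL := hol hw
  have hc : StCONN := conn half
  have h0 := Helper49.DF.hn0
  have hi := Helper49.DF.inv h0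
  have hWL := Helper49.DF.wl Helper49.DF.ball Helper49.DF.refl (Helper49.DF.pout hc)
    Helper49.DF.pin Helper49.DF.ker Helper49.DF.null
    (Helper49.DF.dens Helper49.DF.pomp Helper49.DF.small)
  have hext := Helper49.DF.extd hh Helper49.DF.circ hi
  have hextv := Helper49.DF.extdv hh hext hi
  exact Helper49.DF.mainu near hh shift hextv hi (Helper49.DF.topu hc half h0 hi)
    (Helper49.DF.corev hWL Helper49.DF.cone) (Helper49.DF.finv hi Helper49.DF.ann)
    Ω D' V k α β u v u' v' ψ hΩ hconn hbdd hsmooth hk hk1 hV hVconn hdisc hψ hinj hsub hD'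
    hclosure hpot hpot' hdata hα huniform

end Pool.Agent.Results.MP_dfbc29_an.UniformField
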